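import Pool.Agent.Helper18.SU.Goals

/-! # Packets PMQX and SUM -/

set_option autoImplicit false

namespace Pool.Agent.Helper45.SU

open Pool.Agent.Helper18.SU

theorem PMQX (h : PMQ_stmt) : PMQX_stmt := by
  classical
  intro V _ A hA X p q L hL hX
  have hA' : Tour (fun a b : X => A a b) := by
    refine ⟨fun u v => hA.1 u v, fun u v huv => hA.2 u v fun e => huv (Subtype.ext e)⟩
  obtain ⟨P, Q, M, hPQ, hPM, hQM, hdeg, hcard⟩ := h X (fun a b => A a b) hA' p q L hL (by
    rw [Fintype.card_coe]
    exact hX)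
  have hsub : ∀ S : Finset X, S.map (Function.Embedding.subtype _) ⊆ X := by
    intro S x hx
    obtain ⟨y, _, rfl⟩ := Finset.mem_map.1 hx
    exact y.2
  have hdis : ∀ S T : Finset X, Disjoint S T →
      Disjoint (S.map (Function.Embedding.subtype _)) (T.map (Function.Embedding.subtype _)) :=
    fun S T hST => (Finset.disjoint_map _).2 hST
  have hcf : ∀ (S : Finset X) (r : V → Prop), ((S.map (Function.Embedding.subtype _)).filter r).card =
      (S.filter (fun y : X => r y.1)).card := by
    intro S r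
    rw [Finset.filter_map, Finset.card_map]
    rfl
  refine ⟨P.map (Function.Embedding.subtype _), Q.map (Function.Embedding.subtype _),
    M.map (Function.Embedding.subtype _), hsub _, hsub _, hsub _, hdis _ _ hPQ, hdis _ _ hPM,
    hdis _ _ hQM, ?_, ?_⟩
  · intro x hx
    obtain ⟨y, hy, rfl⟩ := Finset.mem_map.1 hx
    rw [hcf, hcf]
    exact hdeg y hy
  · rw [Finset.card_map]
    rw [Fintype.card_coe] at hcard
    exact hcard

theorem part (L : ℝ) (hL : 1 ≤ L) (p : ℕ) :
    2 * (need p : ℝ) + err L (need p) ≤ 2 * p + 13 * L + 4 * (Real.sqrt L * Real.sqrt p) := by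
  by_cases hp : p = 0
  · subst hp
    simp [need, err]
    linarith
  · have h1 : need p = p + 1 := by simp [need, hp]
    have h2 : err L (need p) = 4 * Real.sqrt (L * (p + 1)) + 8 * L + 1 := by
      rw [h1]
      simp [err]
    rw [h2, h1]
    have hp1 : (1 : ℝ) ≤ p := by
      have : 1 ≤ p := Nat.one_le_iff_ne_zero.2 hp
      exact_mod_cast this
    have h3 : Real.sqrt (p + 1) ≤ Real.sqrt p + 1 / 2 := by
      rw [Real.sqrt_le_left (by positivity)]
      have h4 : 1 ≤ Real.sqrt p := by
        rw [Real.one_le_sqrt]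
        exact hp1
      have h5 := Real.sq_sqrt (show (0 : ℝ) ≤ p by positivity)
      nlinarith
    have h6 : Real.sqrt L ≤ L := by
      rw [Real.sqrt_le_left (by linarith)]
      nlinarith
    rw [Real.sqrt_mul (by linarith)]
    have h7 : Real.sqrt L * Real.sqrt (p + 1) ≤ Real.sqrt L * (Real.sqrt p + 1 / 2) :=
      mul_le_mul_of_nonneg_left h3 (Real.sqrt_nonneg _)
    push_cast
    linarith

theorem SUM : SUM_stmt := by
  intro R p q s L hL hs
  have h1 : ∀ i, cost L (p i) (q i) ≤ 2 * ((p i : ℝ) + q i) + 27 * L +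
      4 * Real.sqrt L * (Real.sqrt (p i) + Real.sqrt (q i)) := by
    intro i
    have a := part L hL (p i)
    have b := part L hL (q i)
    unfold cost
    linarith
  have hcs : ∑ i ∈ Finset.range R, (Real.sqrt (p i) + Real.sqrt (q i)) ≤ Real.sqrt (2 * R * s) := by
    apply Real.le_sqrt_of_sq_le
    refine (sq_sum_le_card_mul_sum_sq).trans ?_
    rw [Finset.card_range]
    have h2 : ∑ i ∈ Finset.range R, (Real.sqrt (p i) + Real.sqrt (q i)) ^ 2 ≤ 2 * s := by
      have h3 : ∀ i ∈ Finset.range R, (Real.sqrt (p i) + Real.sqrt (q i)) ^ 2 ≤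
          2 * ((p i + q i : ℕ) : ℝ) := by
        intro i _
        have a := Real.sq_sqrt (show (0 : ℝ) ≤ p i by positivity)
        have b := Real.sq_sqrt (show (0 : ℝ) ≤ q i by positivity)
        push_cast
        nlinarith [sq_nonneg (Real.sqrt (p i) - Real.sqrt (q i))]
      refine (Finset.sum_le_sum h3).trans ?_
      rw [← Finset.mul_sum, ← Nat.cast_sum]
      have : ((∑ i ∈ Finset.range R, (p i + q i) : ℕ) : ℝ) ≤ s := by exact_mod_cast hs
      linarith
    calc (R : ℝ) * ∑ i ∈ Finset.range R, (Real.sqrt (p i) + Real.sqrt (q i)) ^ 2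
        ≤ R * (2 * s) := mul_le_mul_of_nonneg_left h2 (by positivity)
      _ = 2 * R * s := by ring
  calc ∑ i ∈ Finset.range R, cost L (p i) (q i)
      ≤ ∑ i ∈ Finset.range R, (2 * ((p i : ℝ) + q i) + 27 * L +
        4 * Real.sqrt L * (Real.sqrt (p i) + Real.sqrt (q i))) :=
        Finset.sum_le_sum fun i _ => h1 i
    _ = 2 * ((∑ i ∈ Finset.range R, (p i + q i) : ℕ) : ℝ) + 27 * L * R +
        4 * Real.sqrt L * ∑ i ∈ Finset.range R, (Real.sqrt (p i) + Real.sqrt (q i)) := by
        rw [Finset.sum_add_distrib, Finset.sum_add_distrib, ← Finset.mul_sum, ← Finset.mul_sum,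
          Finset.sum_const, Finset.card_range, nsmul_eq_mul, ← Finset.mul_sum]
        push_cast
        ring
    _ ≤ 2 * (s : ℝ) + 27 * L * R + 4 * Real.sqrt L * Real.sqrt (2 * R * s) := by
        have h4 : ((∑ i ∈ Finset.range R, (p i + q i) : ℕ) : ℝ) ≤ s := by exact_mod_cast hs
        have h5 := mul_le_mul_of_nonneg_left hcs (show (0 : ℝ) ≤ 4 * Real.sqrt L by positivity)
        linarith
    _ = 2 * (s : ℝ) + 27 * L * R + 4 * Real.sqrt (2 * L * R * s) := by
        rw [mul_assoc 4, ← Real.sqrt_mul (by linarith)]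
        ring_nf

end Pool.Agent.Helper45.SU
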